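import Mathlib

set_option autoImplicit false

/-!
# Elementary vectors of subspaces of `ℝ ^ m`

Elementary vectors (circuits), duality of the ratios of their entries, bounds for the sizes of the
circuits of spaces attached to matrices of bounded treedepth.
-/

namespace Pool.Agent.Y222.TD

variable {ι : Type*}

/-- `C` is an elementary vector of `L`. -/
def Elem (L : Submodule ℝ (ι → ℝ)) (C : ι → ℝ) : Prop :=
  C ∈ L ∧ C ≠ 0 ∧ ∀ D ∈ L, (∀ i, C i = 0 → D i = 0) → ∃ l : ℝ, D = l • C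

theorem exists_ne {C : ι → ℝ} (h : C ≠ 0) : ∃ i, C i ≠ 0 := Function.ne_iff.1 h

/-- number of nonzero entries -/
noncomputable def sz (C : ι → ℝ) : ℕ := {i | C i ≠ 0}.ncard

theorem sz_le_of [Finite ι] {C D : ι → ℝ} (h : ∀ i, C i = 0 → D i = 0) : sz D ≤ sz C :=
  Set.ncard_le_ncard (fun i (hi : D i ≠ 0) (hc : C i = 0) => hi (h i hc)) (Set.toFinite _)

theorem sz_lt_of [Finite ι] {C D : ι → ℝ} (h : ∀ i, C i = 0 → D i = 0) {k : ι} (h1 : D k = 0)
    (h2 : C k ≠ 0) : sz D < sz C := by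
  refine Set.ncard_lt_ncard ?_ (Set.toFinite _)
  have hsub : {i | D i ≠ 0} ⊆ {i | C i ≠ 0} := fun i (hi : D i ≠ 0) (hc : C i = 0) => hi (h i hc)
  rw [Set.ssubset_iff_of_subset hsub]
  exact ⟨k, h2, fun hk => hk h1⟩

/-- Below every nonzero vector of `L` with nonzero entry at `i` there is an elementary vector with
nonzero entry at `i`. -/
theorem exists_elem_at [Finite ι] {L : Submodule ℝ (ι → ℝ)} {v : ι → ℝ} (hv : v ∈ L) {i : ι}
    (hi : v i ≠ 0) : ∃ E, Elem L E ∧ E i ≠ 0 ∧ ∀ k, v k = 0 → E k = 0 := by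
  classical
  -- minimal size
  have hex : ∃ n, ∃ E ∈ L, E i ≠ 0 ∧ (∀ k, v k = 0 → E k = 0) ∧ sz E = n :=
    ⟨sz v, v, hv, hi, fun _ h => h, rfl⟩
  obtain ⟨E, hE, hEi, hEv, hEn⟩ := Nat.find_spec hex
  have hmin : ∀ F ∈ L, F i ≠ 0 → (∀ k, v k = 0 → F k = 0) → sz E ≤ sz F := by
    intro F h1 h2 h3
    rw [hEn]
    exact Nat.find_min' hex ⟨F, h1, h2, h3, rfl⟩
  refine ⟨E, ⟨hE, fun h => hEi (by rw [h]; rfl), fun D hD hDE => ?_⟩, hEi, hEv⟩
  refine ⟨D i / E i, ?_⟩
  by_contra hne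
  set F : ι → ℝ := D - (D i / E i) • E with hF
  have hF0 : F ≠ 0 := fun h => hne (sub_eq_zero.1 h)
  obtain ⟨k, hk⟩ := exists_ne hF0
  have hFi : F i = 0 := by
    simp only [hF, Pi.sub_apply, Pi.smul_apply, smul_eq_mul]
    field_simp
    ring
  have hFE : ∀ j, E j = 0 → F j = 0 := by
    intro j hj
    simp only [hF, Pi.sub_apply, Pi.smul_apply, smul_eq_mul, hj, hDE j hj]
    ring
  have hEk : E k ≠ 0 := fun h => hk (hFE k h)
  have hFL : F ∈ L := L.sub_mem hD (L.smul_mem _ hE)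
  set G : ι → ℝ := E - (E k / F k) • F with hG
  have hGL : G ∈ L := L.sub_mem hE (L.smul_mem _ hFL)
  have hGi : G i ≠ 0 := by
    simp only [hG, Pi.sub_apply, Pi.smul_apply, smul_eq_mul, hFi]
    simpa using hEi
  have hGk : G k = 0 := by
    simp only [hG, Pi.sub_apply, Pi.smul_apply, smul_eq_mul]
    field_simp
    ring
  have hGE : ∀ j, E j = 0 → G j = 0 := by
    intro j hj
    simp only [hG, Pi.sub_apply, Pi.smul_apply, smul_eq_mul, hj, hFE j hj]
    ring
  have h1 := hmin G hGL hGi (fun j hj => hGE j (hEv j hj))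
  have h2 := sz_lt_of hGE hGk hEk
  omega

theorem Elem.smul_eq {L : Submodule ℝ (ι → ℝ)} {C D : ι → ℝ} (hC : Elem L C) (hD : D ∈ L)
    (h : ∀ i, C i = 0 → D i = 0) (h0 : D ≠ 0) : ∃ l : ℝ, l ≠ 0 ∧ D = l • C := by
  obtain ⟨l, hl⟩ := hC.2.2 D hD h
  refine ⟨l, fun h1 => h0 ?_, hl⟩
  rw [hl, h1, zero_smul]

theorem Elem.zero_iff {L : Submodule ℝ (ι → ℝ)} {C D : ι → ℝ} (hC : Elem L C) (hD : D ∈ L)
    (h : ∀ i, C i = 0 → D i = 0) (h0 : D ≠ 0) (i : ι) : D i = 0 ↔ C i = 0 := by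
  obtain ⟨l, hl, rfl⟩ := hC.smul_eq hD h h0
  simp [hl]

theorem Elem.sz_eq {L : Submodule ℝ (ι → ℝ)} {C D : ι → ℝ} (hC : Elem L C) (hD : D ∈ L)
    (h : ∀ i, C i = 0 → D i = 0) (h0 : D ≠ 0) : sz C = sz D := by
  unfold sz
  congr 1
  ext i
  simp only [Set.mem_ofPred_eq, ne_eq, hC.zero_iff hD h h0 i]

/-- `L` has codimension at most one in `L'` (and `L ≤ L'`). -/
def Near (L L' : Submodule ℝ (ι → ℝ)) : Prop :=
  L ≤ L' ∧ ∀ E ∈ L', ∀ F ∈ L', ∃ a b : ℝ, (a ≠ 0 ∨ b ≠ 0) ∧ a • E + b • F ∈ L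

theorem sz_add_le [Finite ι] {E F G : ι → ℝ} (h : ∀ i, E i = 0 → F i = 0 → G i = 0) :
    sz G ≤ sz E + sz F := by
  unfold sz
  refine le_trans (Set.ncard_le_ncard ?_ (Set.toFinite _)) (Set.ncard_union_le _ _)
  intro i hi
  by_contra hc
  simp only [Set.mem_union, Set.mem_ofPred_eq, not_or, not_not] at hc
  exact hi (h i hc.1 hc.2)

/-- **Circuits of a hyperplane have at most twice the size.** -/
theorem near_sz [Finite ι] {L L' : Submodule ℝ (ι → ℝ)} (hn : Near L L') {s : ℕ}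
    (hs : ∀ C, Elem L' C → sz C ≤ s) {C : ι → ℝ} (hC : Elem L C) : sz C ≤ 2 * s := by
  obtain ⟨i, hi⟩ := exists_ne hC.2.1
  obtain ⟨E, hE, hEi, hEC⟩ := exists_elem_at (hn.1 hC.1) hi
  set C' : ι → ℝ := C - (C i / E i) • E with hC'
  have hC'i : C' i = 0 := by
    simp only [hC', Pi.sub_apply, Pi.smul_apply, smul_eq_mul]
    field_simp
    ring
  have hC'C : ∀ j, C j = 0 → C' j = 0 := by
    intro j hj
    simp only [hC', Pi.sub_apply, Pi.smul_apply, smul_eq_mul, hj, hEC j hj]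
    ring
  by_cases h0 : C' = 0
  · -- `C` is a multiple of `E`
    have h1 : C = (C i / E i) • E := sub_eq_zero.1 h0
    have h2 : sz C ≤ sz E := by
      refine sz_le_of fun j hj => ?_
      rw [h1, Pi.smul_apply, hj, smul_zero]
    have := hs E hE
    omega
  · obtain ⟨k, hk⟩ := exists_ne h0
    have hC'L : C' ∈ L' := L'.sub_mem (hn.1 hC.1) (L'.smul_mem _ hE.1)
    obtain ⟨F, hF, hFk, hFC⟩ := exists_elem_at hC'L hk
    have hFi : F i = 0 := hFC i hC'i
    obtain ⟨a, b, hab, hG⟩ := hn.2 E hE.1 F hF.1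
    set G : ι → ℝ := a • E + b • F with hGdef
    have hG0 : G ≠ 0 := by
      intro h
      have h1 : G i = 0 := by rw [h]; rfl
      simp only [hGdef, Pi.add_apply, Pi.smul_apply, smul_eq_mul, hFi, mul_zero, add_zero] at h1
      have ha : a = 0 := by
        rcases mul_eq_zero.1 h1 with h2 | h2
        · exact h2
        · exact absurd h2 hEi
      have h2 : G k = 0 := by rw [h]; rfl
      simp only [hGdef, Pi.add_apply, Pi.smul_apply, smul_eq_mul, ha, zero_mul, zero_add] at h2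
      rcases mul_eq_zero.1 h2 with h3 | h3
      · rcases hab with h4 | h4
        · exact h4 ha
        · exact h4 h3
      · exact hFk h3
    have hGC : ∀ j, C j = 0 → G j = 0 := by
      intro j hj
      simp only [hGdef, Pi.add_apply, Pi.smul_apply, smul_eq_mul, hEC j hj, hFC j (hC'C j hj)]
      ring
    rw [hC.sz_eq hG hGC hG0]
    have h1 : sz G ≤ sz E + sz F := by
      refine sz_add_le fun j h1 h2 => ?_
      simp only [hGdef, Pi.add_apply, Pi.smul_apply, smul_eq_mul, h1, h2]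
      ring
    have := hs E hE
    have := hs F hF
    omega

/-- If a unit vector below `C` is in the space, then `C` has one nonzero entry. -/
theorem sz_of_single [DecidableEq ι] {L : Submodule ℝ (ι → ℝ)} {C : ι → ℝ} (hC : Elem L C)
    {i : ι} (hi : C i ≠ 0) (h : (Pi.single i (1 : ℝ) : ι → ℝ) ∈ L) : sz C = 1 := by
  rw [hC.sz_eq h ?_ ?_]
  · unfold sz
    rw [Set.ncard_eq_one]
    refine ⟨i, ?_⟩
    ext j
    simp only [Set.mem_ofPred_eq, Set.mem_singleton_iff]
    constructor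
    · intro hj
      by_contra hne
      exact hj (Pi.single_eq_of_ne hne _)
    · rintro rfl
      simp
  · intro j hj
    refine Pi.single_eq_of_ne ?_ _
    rintro rfl
    exact hi hj
  · intro h0
    have := congrFun h0 i
    simp at this

/-- the restriction of a vector to a set -/
noncomputable def res (S : Set ι) (C : ι → ℝ) : ι → ℝ := by
  classical exact fun i => if i ∈ S then C i else 0

theorem res_mem {S : Set ι} {C : ι → ℝ} {i : ι} (h : i ∈ S) : res S C i = C i := by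
  unfold res; simp [h]

theorem res_not {S : Set ι} {C : ι → ℝ} {i : ι} (h : i ∉ S) : res S C i = 0 := by
  unfold res; simp [h]

/-- an elementary vector which meets `S`, with restriction to `S` in the space, is supported in `S` -/
theorem Elem.sub_of_res {L : Submodule ℝ (ι → ℝ)} {C : ι → ℝ} (hC : Elem L C) {S : Set ι} {i : ι}
    (hi : C i ≠ 0) (hS : i ∈ S) (h : res S C ∈ L) (j : ι) (hj : C j ≠ 0) : j ∈ S := by
  by_contra hjS
  have h1 : ∀ k, C k = 0 → res S C k = 0 := by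
    intro k hk
    by_cases hkS : k ∈ S
    · rw [res_mem hkS, hk]
    · exact res_not hkS
  have h2 : res S C ≠ 0 := by
    intro h0
    apply hi
    rw [← res_mem (C := C) hS, h0]
    rfl
  exact hj ((hC.zero_iff h h1 h2 j).1 (res_not hjS))

end Pool.Agent.Y222.TD
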