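import Pool.Agent.Y222.TD.Circ

set_option autoImplicit false

/-!
# Matrices of bounded treedepth: sizes of circuits
-/

namespace Pool.Agent.Y222.TD

open List

variable {ι κ : Type*}

/-- the words which properly extend `u` -/
def Bel (w : κ → List ℕ) (u : List ℕ) : Set κ := {j | u <+: w j ∧ u ≠ w j}

/-- the words which extend `u a` -/
def At (w : κ → List ℕ) (u : List ℕ) (a : ℕ) : Set κ := {j | u ++ [a] <+: w j}

theorem at_sub_bel {w : κ → List ℕ} {u : List ℕ} {a : ℕ} : At w u a ⊆ Bel w u := by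
  intro j hj
  refine ⟨(prefix_append u [a]).trans hj, fun h => ?_⟩
  have h1 := (show u ++ [a] <+: w j from hj).length_le
  rw [← h, length_append] at h1
  simp at h1

theorem bel_sub_at {w : κ → List ℕ} {u : List ℕ} {a : ℕ} : Bel w (u ++ [a]) ⊆ At w u a :=
  fun _ hj => hj.1

theorem exists_at {w : κ → List ℕ} {u : List ℕ} {j : κ} (hj : j ∈ Bel w u) : ∃ a, j ∈ At w u a := by
  obtain ⟨⟨t, ht⟩, h2⟩ := hj
  cases t with
  | nil => exact absurd (by rw [← ht, append_nil]) h2
  | cons a t => exact ⟨a, t, by rw [← ht]; simp⟩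

theorem comp_at {x y u : List ℕ} {a : ℕ} (hx : u ++ [a] <+: x) (hy : u <+: y) (hne : u ≠ y)
    (h : x <+: y ∨ y <+: x) : u ++ [a] <+: y := by
  rcases h with h | h
  · exact hx.trans h
  · rcases prefix_or_prefix_of_prefix hx h with h1 | h1
    · exact h1
    · rcases prefix_concat_iff.1 h1 with h2 | h2
      · rw [h2]
      · exact absurd (hy.eq_of_length_le h2.length_le) hne

theorem eq_of_mem_at {w : κ → List ℕ} {u : List ℕ} {a : ℕ} {j : κ} (hj : j ∈ At w u a)
    (h : j ∉ Bel w (u ++ [a])) : w j = u ++ [a] := by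
  by_contra hne
  exact h ⟨hj, fun h1 => hne h1.symm⟩

/-- the vectors whose pairing with the columns in `X` is zero -/
def LX [Fintype ι] (A : ι → κ → ℝ) (X : Set κ) : Submodule ℝ (ι → ℝ) where
  carrier := {C | ∀ j ∈ X, ∑ i, C i * A i j = 0}
  add_mem' := by
    intro C D hC hD j hj
    simp only [Pi.add_apply, add_mul, Finset.sum_add_distrib]
    rw [hC j hj, hD j hj, add_zero]
  zero_mem' := by
    intro j _
    simp
  smul_mem' := by
    intro c C hC j hj
    simp only [Pi.smul_apply, smul_eq_mul, mul_assoc, ← Finset.mul_sum]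
    rw [hC j hj, mul_zero]

theorem mem_LX [Fintype ι] {A : ι → κ → ℝ} {X : Set κ} {C : ι → ℝ} :
    C ∈ LX A X ↔ ∀ j ∈ X, ∑ i, C i * A i j = 0 := Iff.rfl

theorem near_LX [Fintype ι] {A : ι → κ → ℝ} {w : κ → List ℕ} (hw : Function.Injective w)
    (u : List ℕ) (a : ℕ) : Near (LX A (At w u a)) (LX A (Bel w (u ++ [a]))) := by
  refine ⟨fun C hC j hj => hC j (bel_sub_at hj), fun E hE F hF => ?_⟩
  by_cases h : ∃ r, w r = u ++ [a]
  · obtain ⟨r, hr⟩ := h
    by_cases h0 : (∑ i, E i * A i r = 0) ∧ (∑ i, F i * A i r = 0)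
    · refine ⟨1, 0, Or.inl one_ne_zero, ?_⟩
      rw [one_smul, zero_smul, add_zero]
      intro j hj
      by_cases hjb : j ∈ Bel w (u ++ [a])
      · exact hE j hjb
      · have : j = r := hw ((eq_of_mem_at hj hjb).trans hr.symm)
        rw [this]
        exact h0.1
    · refine ⟨∑ i, F i * A i r, -∑ i, E i * A i r, ?_, ?_⟩
      · by_contra hc
        push Not at hc
        exact h0 ⟨neg_eq_zero.1 hc.2, hc.1⟩
      intro j hj
      by_cases hjb : j ∈ Bel w (u ++ [a])
      · exact (LX A (Bel w (u ++ [a]))).add_mem ((LX A _).smul_mem _ hE) ((LX A _).smul_mem _ hF) j hjb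
      · have : j = r := hw ((eq_of_mem_at hj hjb).trans hr.symm)
        rw [this]
        simp only [Pi.add_apply, Pi.smul_apply, smul_eq_mul, add_mul, Finset.sum_add_distrib, mul_assoc,
          ← Finset.mul_sum]
        ring
  · refine ⟨1, 0, Or.inl one_ne_zero, ?_⟩
    rw [one_smul, zero_smul, add_zero]
    intro j hj
    by_cases hjb : j ∈ Bel w (u ++ [a])
    · exact hE j hjb
    · exact absurd ⟨j, eq_of_mem_at hj hjb⟩ h

theorem bel_empty {w : κ → List ℕ} {u : List ℕ}
    (h : ∀ j, u <+: w j → (w j).length ≤ u.length + 0) (j : κ) : j ∉ Bel w u := by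
  intro hj
  exact hj.2 (hj.1.eq_of_length_le (h j hj.1))

/-- **Primal treedepth.** -/
theorem sz_primal [Fintype ι] (A : ι → κ → ℝ) {w : κ → List ℕ} (hw : Function.Injective w)
    (hc : ∀ i j j', A i j ≠ 0 → A i j' ≠ 0 → w j <+: w j' ∨ w j' <+: w j) :
    ∀ (D : ℕ) (u : List ℕ), (∀ j, u <+: w j → (w j).length ≤ u.length + D) →
      ∀ C, Elem (LX A (Bel w u)) C → sz C ≤ 2 ^ D := by
  classical
  intro D
  induction D with
  | zero =>
    intro u hu C hC
    obtain ⟨i, hi⟩ := exists_ne hC.2.1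
    rw [sz_of_single hC hi]
    · simp
    · intro j hj
      exact absurd hj (bel_empty hu j)
  | succ D ih =>
    intro u hu C hC
    obtain ⟨i₀, hi₀⟩ := exists_ne hC.2.1
    by_cases hz : ∀ j ∈ Bel w u, A i₀ j = 0
    · rw [sz_of_single hC hi₀]
      · exact Nat.one_le_two_pow
      · intro j hj
        rw [Finset.sum_eq_single i₀]
        · rw [hz j hj, mul_zero]
        · intro i _ hi
          rw [Pi.single_eq_of_ne hi, zero_mul]
        · intro h
          exact absurd (Finset.mem_univ _) h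
    push Not at hz
    obtain ⟨j₀, hj₀, hA₀⟩ := hz
    obtain ⟨a, ha⟩ := exists_at hj₀
    set R : Set ι := {i | ∃ j ∈ At w u a, A i j ≠ 0} with hR
    have hRz : ∀ i ∈ R, ∀ j ∈ Bel w u, j ∉ At w u a → A i j = 0 := by
      rintro i ⟨j', hj', hA'⟩ j hj hja
      by_contra hA
      exact hja (comp_at hj' hj.1 hj.2 (hc i j' j hA' hA))
    have hres : res R C ∈ LX A (Bel w u) := by
      intro j hj
      by_cases hja : j ∈ At w u a
      · rw [← hC.1 j hj]
        refine Finset.sum_congr rfl fun i _ => ?_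
        by_cases hA : A i j = 0
        · rw [hA, mul_zero, mul_zero]
        · rw [res_mem (show i ∈ R from ⟨j, hja, hA⟩)]
      · refine Finset.sum_eq_zero fun i _ => ?_
        by_cases hi : i ∈ R
        · rw [hRz i hi j hj hja, mul_zero]
        · rw [res_not hi, zero_mul]
    have hsub := hC.sub_of_res hi₀ (show i₀ ∈ R from ⟨j₀, ha, hA₀⟩) hres
    have hC' : Elem (LX A (At w u a)) C := by
      refine ⟨fun j hj => hC.1 j (at_sub_bel hj), hC.2.1, fun F hF hFC => hC.2.2 F ?_ hFC⟩
      intro j hj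
      by_cases hja : j ∈ At w u a
      · exact hF j hja
      · refine Finset.sum_eq_zero fun i _ => ?_
        by_cases hi : C i = 0
        · rw [hFC i hi, zero_mul]
        · rw [hRz i (hsub i hi) j hj hja, mul_zero]
    have h1 := near_sz (near_LX hw u a) (ih (u ++ [a]) fun j hj => by
      have := hu j ((prefix_append u [a]).trans hj)
      rw [length_append]
      simp only [length_cons, length_nil]
      omega) hC'
    rw [pow_succ]
    omega

/-- the vectors which agree on `X` with a vector `A x` -/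
def WX [Fintype κ] (A : ι → κ → ℝ) (X : Set ι) : Submodule ℝ (ι → ℝ) where
  carrier := {y | ∃ x : κ → ℝ, ∀ i ∈ X, y i = ∑ j, A i j * x j}
  add_mem' := by
    rintro y z ⟨x, hx⟩ ⟨x', hx'⟩
    refine ⟨x + x', fun i hi => ?_⟩
    simp only [Pi.add_apply, mul_add, Finset.sum_add_distrib]
    rw [hx i hi, hx' i hi]
  zero_mem' := ⟨0, fun i _ => by simp⟩
  smul_mem' := by
    rintro c y ⟨x, hx⟩
    refine ⟨c • x, fun i hi => ?_⟩
    simp only [Pi.smul_apply, smul_eq_mul]
    rw [hx i hi, Finset.mul_sum]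
    exact Finset.sum_congr rfl fun j _ => by ring

theorem near_WX [Fintype κ] {A : ι → κ → ℝ} {w : ι → List ℕ} (hw : Function.Injective w)
    (u : List ℕ) (a : ℕ) : Near (WX A (At w u a)) (WX A (Bel w (u ++ [a]))) := by
  refine ⟨fun y ⟨x, hx⟩ => ⟨x, fun i hi => hx i (bel_sub_at hi)⟩, ?_⟩
  rintro E ⟨x, hx⟩ F ⟨x', hx'⟩
  by_cases h : ∃ r, w r = u ++ [a]
  · obtain ⟨r, hr⟩ := h
    by_cases h0 : (E r - ∑ j, A r j * x j = 0) ∧ (F r - ∑ j, A r j * x' j = 0)
    · refine ⟨1, 0, Or.inl one_ne_zero, ?_⟩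
      rw [one_smul, zero_smul, add_zero]
      refine ⟨x, fun i hi => ?_⟩
      by_cases hib : i ∈ Bel w (u ++ [a])
      · exact hx i hib
      · have : i = r := hw ((eq_of_mem_at hi hib).trans hr.symm)
        rw [this]
        exact sub_eq_zero.1 h0.1
    · refine ⟨F r - ∑ j, A r j * x' j, -(E r - ∑ j, A r j * x j), ?_, ?_⟩
      · by_contra hc
        push Not at hc
        exact h0 ⟨neg_eq_zero.1 hc.2, hc.1⟩
      refine ⟨(F r - ∑ j, A r j * x' j) • x + (-(E r - ∑ j, A r j * x j)) • x', fun i hi => ?_⟩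
      have key : ∀ (α β : ℝ), ∑ j, A i j * (α • x + β • x') j =
          α * ∑ j, A i j * x j + β * ∑ j, A i j * x' j := by
        intro α β
        simp only [Pi.add_apply, Pi.smul_apply, smul_eq_mul, mul_add, Finset.sum_add_distrib,
          Finset.mul_sum]
        congr 1 <;> exact Finset.sum_congr rfl fun j _ => by ring
      rw [key]
      simp only [Pi.add_apply, Pi.smul_apply, smul_eq_mul]
      by_cases hib : i ∈ Bel w (u ++ [a])
      · rw [hx i hib, hx' i hib]
      · have : i = r := hw ((eq_of_mem_at hi hib).trans hr.symm)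
        rw [this]
        ring
  · refine ⟨1, 0, Or.inl one_ne_zero, ?_⟩
    rw [one_smul, zero_smul, add_zero]
    refine ⟨x, fun i hi => ?_⟩
    by_cases hib : i ∈ Bel w (u ++ [a])
    · exact hx i hib
    · exact absurd ⟨i, eq_of_mem_at hi hib⟩ h

/-- **Dual treedepth.** -/
theorem sz_dual [Finite ι] [Fintype κ] (A : ι → κ → ℝ) {w : ι → List ℕ} (hw : Function.Injective w)
    (hc : ∀ j i i', A i j ≠ 0 → A i' j ≠ 0 → w i <+: w i' ∨ w i' <+: w i) :
    ∀ (D : ℕ) (u : List ℕ), (∀ i, u <+: w i → (w i).length ≤ u.length + D) →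
      ∀ C, Elem (WX A (Bel w u)) C → sz C ≤ 2 ^ D := by
  classical
  intro D
  induction D with
  | zero =>
    intro u hu C hC
    obtain ⟨i, hi⟩ := exists_ne hC.2.1
    rw [sz_of_single hC hi]
    · simp
    · exact ⟨0, fun j hj => absurd hj (bel_empty hu j)⟩
  | succ D ih =>
    intro u hu C hC
    obtain ⟨i₀, hi₀⟩ := exists_ne hC.2.1
    by_cases hz : i₀ ∈ Bel w u
    swap
    · rw [sz_of_single hC hi₀]
      · exact Nat.one_le_two_pow
      · refine ⟨0, fun i hi => ?_⟩
        rw [Pi.single_eq_of_ne (by rintro rfl; exact hz hi)]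
        simp
    obtain ⟨a, ha⟩ := exists_at hz
    -- a solution on `At` gives a solution on `Bel` for the restriction
    have hext : ∀ F : ι → ℝ, (∃ x : κ → ℝ, ∀ i ∈ At w u a, F i = ∑ j, A i j * x j) →
        (∀ i ∈ Bel w u, i ∉ At w u a → F i = 0) → F ∈ WX A (Bel w u) := by
      rintro F ⟨x, hx⟩ hF
      refine ⟨fun j => if ∃ i ∈ At w u a, A i j ≠ 0 then x j else 0, fun i hi => ?_⟩
      by_cases hia : i ∈ At w u a
      · rw [hx i hia]
        refine Finset.sum_congr rfl fun j _ => ?_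
        by_cases hA : A i j = 0
        · rw [hA, zero_mul, zero_mul]
        · have hex : ∃ i ∈ At w u a, A i j ≠ 0 := ⟨i, hia, hA⟩
          simp only [if_pos hex]
      · rw [hF i hi hia]
        symm
        refine Finset.sum_eq_zero fun j _ => ?_
        by_cases hj : ∃ i ∈ At w u a, A i j ≠ 0
        · obtain ⟨i', hi', hA'⟩ := hj
          have hA : A i j = 0 := by
            by_contra hA
            exact hia (comp_at hi' hi.1 hi.2 (hc j i' i hA' hA))
          rw [hA, zero_mul]
        · simp only [if_neg hj, mul_zero]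
    obtain ⟨x, hx⟩ := hC.1
    have hres : res (At w u a) C ∈ WX A (Bel w u) := by
      refine hext _ ⟨x, fun i hi => ?_⟩ fun i _ hi => res_not hi
      rw [res_mem hi]
      exact hx i (at_sub_bel hi)
    have hsub := hC.sub_of_res hi₀ ha hres
    have hC' : Elem (WX A (At w u a)) C := by
      refine ⟨⟨x, fun i hi => hx i (at_sub_bel hi)⟩, hC.2.1, fun F hF hFC => hC.2.2 F ?_ hFC⟩
      refine hext F hF fun i _ hia => ?_
      by_contra hFi
      exact hia (hsub i fun h => hFi (hFC i h))
    have h1 := near_sz (near_WX hw u a) (ih (u ++ [a]) fun j hj => by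
      have := hu j ((prefix_append u [a]).trans hj)
      rw [length_append]
      simp only [length_cons, length_nil]
      omega) hC'
    rw [pow_succ]
    omega

end Pool.Agent.Y222.TD
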