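import Pool.Agent.Y222.TD.Dual

set_option autoImplicit false

/-!
# The left kernel and the column space of a matrix of bounded treedepth
-/

namespace Pool.Agent.Y222.TD

variable {ι κ : Type*}

theorem bel_nil {w : κ → List ℕ} (h : ∀ j, 1 ≤ (w j).length) : Bel w [] = Set.univ := by
  ext j
  simp only [Set.mem_univ, iff_true]
  refine ⟨List.nil_prefix, fun h1 => ?_⟩
  have := h j
  rw [← h1] at this
  simp at this

/-- the orthogonal space of the left kernel is the column space -/
theorem orth_LX [Fintype ι] [Fintype κ] (A : ι → κ → ℝ) :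
    orth (LX A Set.univ) = WX A Set.univ := by
  classical
  apply le_antisymm
  · intro y hy
    by_contra hne
    obtain ⟨f, hf, hker⟩ := Submodule.exists_le_ker_of_notMem hne
    have hfy : ∀ v : ι → ℝ, f v = ∑ k, v k * f (Pi.single k 1) := by
      intro v
      rw [LinearMap.pi_apply_eq_sum_univ f v]
      refine Finset.sum_congr rfl fun k _ => ?_
      rw [smul_eq_mul]
      congr 2
      ext l
      by_cases h : k = l
      · subst h; simp
      · rw [if_neg h, Pi.single_eq_of_ne (fun h' => h h'.symm)]
    have hc : (fun k => f (Pi.single k 1)) ∈ LX A Set.univ := by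
      intro j _
      have h1 : f (fun i => A i j) = 0 := by
        refine hker ⟨Pi.single j 1, fun i _ => ?_⟩
        rw [Finset.sum_eq_single j]
        · rw [Pi.single_eq_same, mul_one]
        · intro k _ hk
          rw [Pi.single_eq_of_ne hk, mul_zero]
        · intro h
          exact absurd (Finset.mem_univ _) h
      rw [hfy] at h1
      rw [← h1]
      exact Finset.sum_congr rfl fun i _ => mul_comm _ _
    have h2 := hy _ hc
    apply hf
    rw [hfy, ← h2]
    exact Finset.sum_congr rfl fun i _ => mul_comm _ _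
  · rintro y ⟨x, hx⟩ C hC
    have h1 : ∀ i, C i * y i = ∑ j, C i * A i j * x j := by
      intro i
      rw [hx i (Set.mem_univ _), Finset.mul_sum]
      exact Finset.sum_congr rfl fun j _ => by ring
    simp only [h1]
    rw [Finset.sum_comm]
    refine Finset.sum_eq_zero fun j _ => ?_
    rw [← Finset.sum_mul, hC j (Set.mem_univ _), zero_mul]

/-- Circuits of the left kernel of a matrix of primal treedepth `D`. -/
theorem primal [Fintype ι] (A : ι → κ → ℝ) {D : ℕ} {w : κ → List ℕ} (hw : Function.Injective w)
    (h1 : ∀ j, 1 ≤ (w j).length ∧ (w j).length ≤ D)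
    (hc : ∀ i j j', A i j ≠ 0 → A i j' ≠ 0 → w j <+: w j' ∨ w j' <+: w j) (C : ι → ℝ)
    (hC : Elem (LX A Set.univ) C) : sz C ≤ 2 ^ D := by
  rw [← bel_nil (w := w) fun j => (h1 j).1] at hC
  exact sz_primal A hw hc D [] (fun j _ => by simpa using (h1 j).2) C hC

/-- Cocircuits of the left kernel of a matrix of dual treedepth `D`. -/
theorem dual [Fintype ι] [Fintype κ] (A : ι → κ → ℝ) {D : ℕ} {w : ι → List ℕ}
    (hw : Function.Injective w) (h1 : ∀ j, 1 ≤ (w j).length ∧ (w j).length ≤ D)
    (hc : ∀ j i i', A i j ≠ 0 → A i' j ≠ 0 → w i <+: w i' ∨ w i' <+: w i) (C : ι → ℝ)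
    (hC : Elem (orth (LX A Set.univ)) C) : sz C ≤ 2 ^ D := by
  rw [orth_LX, ← bel_nil (w := w) fun j => (h1 j).1] at hC
  exact sz_dual A hw hc D [] (fun j _ => by simpa using (h1 j).2) C hC

end Pool.Agent.Y222.TD
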