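import Pool.Agent.Y222.TD.Depth

set_option autoImplicit false

/-!
# Duality of circuit ratios, counting circuits
-/

namespace Pool.Agent.Y222.TD

variable {ι : Type*}

/-- the orthogonal space -/
def orth [Fintype ι] (L : Submodule ℝ (ι → ℝ)) : Submodule ℝ (ι → ℝ) where
  carrier := {y | ∀ C ∈ L, ∑ i, C i * y i = 0}
  add_mem' := by
    intro y z hy hz C hC
    simp only [Pi.add_apply, mul_add, Finset.sum_add_distrib]
    rw [hy C hC, hz C hC, add_zero]
  zero_mem' := by
    intro C _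
    simp
  smul_mem' := by
    intro c y hy C hC
    have h1 : ∀ i, C i * (c • y) i = c * (C i * y i) := fun i => by
      simp only [Pi.smul_apply, smul_eq_mul]; ring
    simp only [h1, ← Finset.mul_sum]
    rw [hy C hC, mul_zero]

/-- the vectors which agree outside `T` with a vector of `L` -/
def Out (L : Submodule ℝ (ι → ℝ)) (T : Set ι) : Submodule ℝ (ι → ℝ) where
  carrier := {v | ∃ F ∈ L, ∀ k, k ∉ T → v k = F k}
  add_mem' := by
    rintro v v' ⟨F, hF, h⟩ ⟨F', hF', h'⟩
    exact ⟨F + F', L.add_mem hF hF', fun k hk => by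
      rw [Pi.add_apply, Pi.add_apply, h k hk, h' k hk]⟩
  zero_mem' := ⟨0, L.zero_mem, fun _ _ => rfl⟩
  smul_mem' := by
    rintro c v ⟨F, hF, h⟩
    exact ⟨c • F, L.smul_mem c hF, fun k hk => by rw [Pi.smul_apply, Pi.smul_apply, h k hk]⟩

/-- **Duality of circuit ratios.** -/
theorem dual_elem [Fintype ι] {L : Submodule ℝ (ι → ℝ)} {C : ι → ℝ} (hC : Elem L C) {i j : ι}
    (hij : i ≠ j) (hi : C i ≠ 0) (hj : C j ≠ 0) :
    ∃ D, Elem (orth L) D ∧ D i ≠ 0 ∧ D j ≠ 0 ∧ |C i / C j| = |D j / D i| := by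
  classical
  set T : Set ι := {k | C k ≠ 0 ∧ k ≠ i ∧ k ≠ j} with hT
  have hnot : (Pi.single i (1 : ℝ) : ι → ℝ) ∉ Out L T := by
    rintro ⟨F, hF, hk⟩
    have hFi : F i = 1 := by
      rw [← hk i (fun h => h.2.1 rfl), Pi.single_eq_same]
    have hFj : F j = 0 := by
      rw [← hk j (fun h => h.2.2 rfl), Pi.single_eq_of_ne hij.symm]
    have hFC : ∀ k, C k = 0 → F k = 0 := by
      intro k hCk
      rw [← hk k (fun h => h.1 hCk), Pi.single_eq_of_ne]
      rintro rfl
      exact hi hCk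
    have h1 : F ≠ 0 := fun h => by rw [h] at hFi; exact one_ne_zero hFi.symm
    exact hj ((hC.zero_iff hF hFC h1 j).1 hFj)
  obtain ⟨f, hf, hker⟩ := Submodule.exists_le_ker_of_notMem hnot
  set y : ι → ℝ := fun k => f (Pi.single k 1) with hy
  have hfy : ∀ v : ι → ℝ, f v = ∑ k, v k * y k := by
    intro v
    rw [LinearMap.pi_apply_eq_sum_univ f v]
    refine Finset.sum_congr rfl fun k _ => ?_
    rw [smul_eq_mul, hy]
    congr 2
    ext l
    by_cases h : k = l
    · subst h; simp
    · rw [if_neg h, Pi.single_eq_of_ne (fun h' => h h'.symm)]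
  have hyL : y ∈ orth L := by
    intro D hD
    rw [← hfy]
    exact hker ⟨D, hD, fun _ _ => rfl⟩
  have hyT : ∀ k ∈ T, y k = 0 := by
    intro k hk
    refine hker (x := Pi.single k 1) ⟨0, L.zero_mem, fun l hl => ?_⟩
    rw [Pi.single_eq_of_ne (by rintro rfl; exact hl hk)]
    rfl
  obtain ⟨D, hD, hDi, hDy⟩ := exists_elem_at hyL (i := i) hf
  have hsum := hD.1 C hC.1
  have hsum2 : C i * D i + C j * D j = 0 := by
    rw [← hsum, ← Finset.sum_subset (Finset.subset_univ ({i, j} : Finset ι)),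
      Finset.sum_pair hij]
    intro k _ hk
    rw [Finset.mem_insert, Finset.mem_singleton, not_or] at hk
    by_cases hCk : C k = 0
    · rw [hCk, zero_mul]
    · rw [hDy k (hyT k ⟨hCk, hk.1, hk.2⟩), mul_zero]
  have hDj : D j ≠ 0 := by
    intro h
    rw [h, mul_zero, add_zero] at hsum2
    rcases mul_eq_zero.1 hsum2 with h1 | h1
    · exact hi h1
    · exact hDi h1
  refine ⟨D, hD, hDi, hDj, ?_⟩
  have : C i / C j = -(D j / D i) := by
    field_simp
    linarith
  rw [this, abs_neg]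

/-- the circuits of `L`: the supports of its elementary vectors -/
def Circ (L : Submodule ℝ (ι → ℝ)) : Set (Set ι) := {U | ∃ C, Elem L C ∧ U = {i | C i ≠ 0}}

/-- A finite set which contains all the ratios of the entries of elementary vectors. -/
theorem ratios [Finite ι] (L : Submodule ℝ (ι → ℝ)) (i j : ι) :
    ∃ S : Finset ℝ, S.card ≤ (Circ L).ncard ∧ (∀ s ∈ S, 0 < s) ∧
      ∀ C, Elem L C → C i ≠ 0 → C j ≠ 0 → |C i / C j| ∈ S := by
  classical
  have hfin : (Circ L).Finite := Set.toFinite _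
  choose! c hc using fun (U : Set ι) (hU : U ∈ Circ L) => hU
  refine ⟨(hfin.toFinset.image fun U => |c U i / c U j|).filter (0 < ·), ?_, ?_, ?_⟩
  · refine (Finset.card_filter_le _ _).trans (Finset.card_image_le.trans ?_)
    rw [Set.ncard_eq_toFinset_card _ hfin]
  · intro s hs
    exact (Finset.mem_filter.1 hs).2
  · intro C hC hi hj
    rw [Finset.mem_filter]
    refine ⟨?_, abs_pos.2 (div_ne_zero hi hj)⟩
    rw [Finset.mem_image]
    have hU : {i | C i ≠ 0} ∈ Circ L := ⟨C, hC, rfl⟩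
    refine ⟨{i | C i ≠ 0}, hfin.mem_toFinset.2 hU, ?_⟩
    obtain ⟨h1, h2⟩ := hc _ hU
    have h3 : ∀ k, C k = 0 → c {i | C i ≠ 0} k = 0 := by
      intro k hk
      by_contra h
      have : k ∈ {i | C i ≠ 0} := by rw [h2]; exact h
      exact this hk
    obtain ⟨l, hl, h4⟩ := hC.smul_eq h1.1 h3 h1.2.1
    rw [h4, Pi.smul_apply, Pi.smul_apply, smul_eq_mul, smul_eq_mul, mul_div_mul_left _ _ hl]

/-- **Counting sets of bounded size.** -/
theorem count [Fintype ι] (X : Set (Set ι)) (s : ℕ) (h : ∀ U ∈ X, U.ncard ≤ s) :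
    X.ncard ≤ (Fintype.card ι + 1) ^ s := by
  classical
  have h1 : X ⊆ Set.range fun f : Fin s → Option ι => {i | ∃ k, f k = some i} := by
    intro U hU
    have hUf : U.Finite := Set.toFinite _
    have hcard : hUf.toFinset.card ≤ s := by
      rw [← Set.ncard_eq_toFinset_card _ hUf]
      exact h U hU
    -- enumerate `U`
    set e := hUf.toFinset.equivFin
    refine ⟨fun k => if hk : (k : ℕ) < hUf.toFinset.card then some (e.symm ⟨k, hk⟩ : ι) else none, ?_⟩
    ext i
    constructor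
    · rintro ⟨k, hk⟩
      by_cases hk' : (k : ℕ) < hUf.toFinset.card
      · simp only [dif_pos hk', Option.some.injEq] at hk
        rw [← hk]
        exact hUf.mem_toFinset.1 (e.symm ⟨k, hk'⟩).2
      · simp only [dif_neg hk'] at hk
        exact absurd hk (by simp)
    · intro hi
      have hi' : i ∈ hUf.toFinset := hUf.mem_toFinset.2 hi
      refine ⟨⟨e ⟨i, hi'⟩, (e ⟨i, hi'⟩).2.trans_le hcard⟩, ?_⟩
      simp only [Fin.is_lt, dite_true, Option.some.injEq, Fin.eta, Equiv.symm_apply_apply]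
  refine (Set.ncard_le_ncard h1 (Set.toFinite _)).trans ?_
  rw [← Set.image_univ]
  refine (Set.ncard_image_le (Set.toFinite _)).trans ?_
  rw [Set.ncard_univ, Nat.card_eq_fintype_card, Fintype.card_fun, Fintype.card_option,
    Fintype.card_fin]

theorem circ_count [Fintype ι] {L : Submodule ℝ (ι → ℝ)} {s : ℕ} (h : ∀ C, Elem L C → sz C ≤ s) :
    (Circ L).ncard ≤ (Fintype.card ι + 1) ^ s := by
  refine count _ s ?_
  rintro U ⟨C, hC, rfl⟩
  exact h C hC

/-- **Few circuits or few cocircuits: few ratios.** -/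
theorem few [Fintype ι] {L : Submodule ℝ (ι → ℝ)} {N : ℕ}
    (h : (Circ L).ncard ≤ N ∨ (Circ (orth L)).ncard ≤ N) :
    ∃ S : ι → ι → Finset ℝ, (∀ i j, (S i j).card ≤ N + 1 ∧ ∀ s ∈ S i j, 0 < s) ∧
      ∀ C, Elem L C → ∀ i j, C i ≠ 0 → C j ≠ 0 → |C i / C j| ∈ S i j := by
  classical
  rcases h with h | h
  · choose S h1 h2 h3 using ratios L
    exact ⟨S, fun i j => ⟨((h1 i j).trans h).trans (Nat.le_succ _), h2 i j⟩,
      fun C hC i j => h3 i j C hC⟩
  · choose S h1 h2 h3 using ratios (orth L)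
    refine ⟨fun i j => insert 1 (S j i), fun i j => ⟨?_, ?_⟩, fun C hC i j hi hj => ?_⟩
    · exact (Finset.card_insert_le _ _).trans (Nat.succ_le_succ ((h1 j i).trans h))
    · intro s hs
      rcases Finset.mem_insert.1 hs with rfl | hs
      · exact one_pos
      · exact h2 j i s hs
    · by_cases hij : i = j
      · subst hij
        rw [div_self hi, abs_one]
        exact Finset.mem_insert_self _ _
      · obtain ⟨D, hD, hDi, hDj, heq⟩ := dual_elem hC hij hi hj
        rw [heq]
        exact Finset.mem_insert_of_mem (h3 j i D hD hDj hDi)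

end Pool.Agent.Y222.TD
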