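import Pool.Agent.Y222.TD.Depth2

set_option autoImplicit false

/-!
# Changing one row or one column
-/

namespace Pool.Agent.Y222.TD

variable {ι κ : Type*}

theorem codim_one [Finite ι] (L' L : Submodule ℝ (ι → ℝ)) (f : (ι → ℝ) →ₗ[ℝ] ℝ)
    (h : ∀ C, C ∈ L ↔ C ∈ L' ∧ f C = 0) :
    L ≤ L' ∧ Module.finrank ℝ L' ≤ Module.finrank ℝ L + 1 := by
  have := Fintype.ofFinite ι
  refine ⟨fun C hC => ((h C).1 hC).1, ?_⟩
  set g : L' →ₗ[ℝ] ℝ := f.comp L'.subtype with hg
  have h1 := LinearMap.finrank_range_add_finrank_ker g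
  have h2 : Module.finrank ℝ (LinearMap.range g) ≤ 1 := by
    have := Submodule.finrank_le (LinearMap.range g)
    rwa [Module.finrank_self] at this
  have h3 : (LinearMap.ker g).map L'.subtype = L := by
    ext C
    simp only [Submodule.mem_map, LinearMap.mem_ker, hg, LinearMap.comp_apply,
      Submodule.subtype_apply, Subtype.exists, exists_and_left, exists_prop, exists_eq_right_right]
    rw [h C]
    tauto
  have h4 : Module.finrank ℝ L = Module.finrank ℝ (LinearMap.ker g) := by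
    rw [← h3]
    exact Submodule.finrank_map_subtype_eq L' _
  omega

/-- the part of `L` in a coordinate hyperplane -/
def Cut (L : Submodule ℝ (ι → ℝ)) (i : ι) : Submodule ℝ (ι → ℝ) where
  carrier := {C | C ∈ L ∧ C i = 0}
  add_mem' := by
    rintro C D ⟨h1, h2⟩ ⟨h3, h4⟩
    exact ⟨L.add_mem h1 h3, by rw [Pi.add_apply, h2, h4, add_zero]⟩
  zero_mem' := ⟨L.zero_mem, rfl⟩
  smul_mem' := by
    rintro c C ⟨h1, h2⟩
    exact ⟨L.smul_mem c h1, by rw [Pi.smul_apply, h2, smul_zero]⟩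

theorem cut_codim [Finite ι] (L : Submodule ℝ (ι → ℝ)) (i : ι) :
    Cut L i ≤ L ∧ Module.finrank ℝ L ≤ Module.finrank ℝ (Cut L i) + 1 :=
  codim_one L (Cut L i) (LinearMap.proj i) fun _ => Iff.rfl

theorem cut_elem {L : Submodule ℝ (ι → ℝ)} {i : ι} {C : ι → ℝ} (hC : Elem (Cut L i) C) :
    Elem L C :=
  ⟨hC.1.1, hC.2.1, fun D hD h => hC.2.2 D ⟨hD, h i hC.1.2⟩ h⟩

theorem cut_orth [Fintype ι] [DecidableEq ι] {L : Submodule ℝ (ι → ℝ)} {i : ι}
    (hi : (Pi.single i (1 : ℝ) : ι → ℝ) ∈ L)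
    {C : ι → ℝ} (hC : Elem (orth (Cut L i)) C) : sz C = 1 ∨ Elem (orth L) C := by
  by_cases h : C i = 0
  · right
    have hle : ∀ y, y ∈ orth (Cut L i) → y i = 0 → y ∈ orth L := by
      intro y hy hyi D hD
      have h1 : D - D i • Pi.single i (1 : ℝ) ∈ Cut L i := by
        refine ⟨L.sub_mem hD (L.smul_mem _ hi), ?_⟩
        simp
      have h2 := hy _ h1
      rw [← h2]
      refine Finset.sum_congr rfl fun k _ => ?_
      by_cases hk : k = i
      · subst hk
        rw [hyi, mul_zero, mul_zero]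
      · rw [Pi.sub_apply, Pi.smul_apply, Pi.single_eq_of_ne hk, smul_zero, sub_zero]
    refine ⟨hle C hC.1 h, hC.2.1, fun D hD hDC => hC.2.2 D ?_ hDC⟩
    intro E hE
    exact hD E hE.1
  · left
    refine sz_of_single hC h ?_
    intro E hE
    refine Finset.sum_eq_zero fun k _ => ?_
    by_cases hk : k = i
    · subst hk
      rw [hE.2, zero_mul]
    · rw [Pi.single_eq_of_ne hk, mul_zero]

end Pool.Agent.Y222.TD
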