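import Pool.Agent.Y648.CX.All
import Pool.Agent.Y222.TD.Near

set_option autoImplicit false

/-!
# Linear feasibility in time polynomial in the number of circuits or cocircuits

One algorithm decides correctly, for all real matrices `A` and vectors `b`, whether `A x ≥ b` is
solvable; its number of elementary steps is polynomial in `m + n + N`, where `N` is the smaller one
of the number of circuits and the number of cocircuits of the rows of `A`, or of any space `L` which
is a hyperplane in the left kernel of `A` or contains it as a hyperplane. Nothing but `A` and `b` is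
given to the algorithm. In particular it is strongly polynomial on all systems with arbitrary real
coefficients, all of whose circuits, or all of whose cocircuits, have bounded size, for instance for
matrices of bounded primal or dual treedepth, even after any invertible operation on the columns and
after adding one arbitrary row or one arbitrary column. The machine model (`Alg`, `run`, `start`,
`PolyControl`, `OracleFree`) is the one of the starting result `UniformAlgorithm`:
`Pool/Agent/H622R3/SM/Model.lean`.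
-/

namespace Pool.Agent.Y222.TD.Final

open Pool.Agent.H558R2 Pool.Agent.H622R3.SM

/-- The elementary vectors of the space `L`: the nonzero vectors `C` in `L` such that every vector
of `L` whose support is contained in the support of `C` is a multiple of `C`. -/
def Elementary {m : ℕ} (L : Submodule ℝ (Fin m → ℝ)) (C : Fin m → ℝ) : Prop :=
  C ∈ L ∧ C ≠ 0 ∧ ∀ D ∈ L, (∀ i, C i = 0 → D i = 0) → ∃ l : ℝ, D = l • C

/-- The circuits of the space `L`: the supports of its elementary vectors. -/
def circuits {m : ℕ} (L : Submodule ℝ (Fin m → ℝ)) : Set (Set (Fin m)) :=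
  {U | ∃ C, Elementary L C ∧ U = {i | C i ≠ 0}}

/-- The space of the vectors orthogonal to `L`. -/
def orthogonal {m : ℕ} (L : Submodule ℝ (Fin m → ℝ)) : Submodule ℝ (Fin m → ℝ) where
  carrier := {y | ∀ C ∈ L, ∑ i, C i * y i = 0}
  add_mem' := (Pool.Agent.Y222.TD.orth L).add_mem'
  zero_mem' := (Pool.Agent.Y222.TD.orth L).zero_mem'
  smul_mem' := (Pool.Agent.Y222.TD.orth L).smul_mem'

/-- The left kernel of `A`: the vectors `C` with `C A = 0`. Its circuits are the minimal linearly
dependent sets of rows of `A`; the space orthogonal to it is the column space of `A`, and the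
circuits of the column space are the cocircuits of the rows of `A`. -/
def leftKernel {m n : ℕ} (A : Matrix (Fin m) (Fin n) ℝ) : Submodule ℝ (Fin m → ℝ) :=
  LinearMap.ker (Matrix.vecMulLinear A)

/-- `L` is a subspace of `L'` of codimension at most one. -/
def Within {m : ℕ} (L L' : Submodule ℝ (Fin m → ℝ)) : Prop :=
  L ≤ L' ∧ Module.finrank ℝ L' ≤ Module.finrank ℝ L + 1

/-- Treedepth at most `D` of the columns: the columns can be placed at different nodes of a rooted
forest of height at most `D` (the nodes are words in `ℕ`, below `w` are the words extending `w`) such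
that of any two columns with a common nonzero row one is placed below the other. -/
def Depth (D : ℕ) {m n : ℕ} (A : Matrix (Fin m) (Fin n) ℝ) : Prop :=
  ∃ w : Fin n → List ℕ, Function.Injective w ∧ (∀ j, 1 ≤ (w j).length ∧ (w j).length ≤ D) ∧
    ∀ i j j', A i j ≠ 0 → A i j' ≠ 0 → w j <+: w j' ∨ w j' <+: w j

/-- On the instance `A x ≥ b` the algorithm `α` stops with the correct answer after at most
`p (m + n + N)` elementary steps, and if the instance is rational, then all numbers computed are
rational of length at most `p (length of the instance + N)`. -/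
def Solves (α : Alg) (p : Polynomial ℕ) (N : ℕ) {m n : ℕ} (A : Matrix (Fin m) (Fin n) ℝ)
    (b : Fin m → ℝ) : Prop :=
  ∃ ans nums steps,
    run ∅ (α m n) (p.eval (m + n + N)) [] (start A b) = some (ans, nums, steps) ∧
    (ans = true ↔ ∃ x : Fin n → ℝ, b ≤ A.mulVec x) ∧ steps ≤ p.eval (m + n + N) ∧
    ∀ (A' : Matrix (Fin m) (Fin n) ℚ) (b' : Fin m → ℚ),
      (∀ i j, ((A' i j : ℚ) : ℝ) = A i j) → (∀ i, ((b' i : ℚ) : ℝ) = b i) →
      ∀ v ∈ nums, ∃ q : ℚ, (q : ℝ) = v ∧ bitLength q ≤ p.eval (inputLength A' b' + N)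

open Pool.Agent.Y222.TD in
theorem circuits_eq {m : ℕ} (L : Submodule ℝ (Fin m → ℝ)) : circuits L = Circ L := rfl

open Pool.Agent.Y222.TD in
theorem orthogonal_eq {m : ℕ} (L : Submodule ℝ (Fin m → ℝ)) : orthogonal L = orth L := rfl

open Pool.Agent.Y222.TD in
theorem leftKernel_eq {m n : ℕ} (A : Matrix (Fin m) (Fin n) ℝ) :
    leftKernel A = LX A Set.univ := by
  ext C
  rw [leftKernel, LinearMap.mem_ker, Matrix.vecMulLinear_apply]
  constructor
  · intro h j _
    exact congrFun h j
  · intro h
    ext j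
    exact h j (Set.mem_univ _)

theorem le_length {m n : ℕ} (hm : 1 ≤ m) (A : Matrix (Fin m) (Fin n) ℚ) (b : Fin m → ℚ) :
    m + n ≤ inputLength A b := by
  have h1 : ∀ q : ℚ, 1 ≤ bitLength q := fun q => by unfold bitLength; omega
  have h2 : m ≤ ∑ i, bitLength (b i) := by
    calc m = ∑ _i : Fin m, 1 := by simp
      _ ≤ _ := Finset.sum_le_sum fun i _ => h1 _
  have h3 : n ≤ ∑ i, ∑ j, bitLength (A i j) := by
    calc n = ∑ _j : Fin n, 1 := by simp
      _ ≤ ∑ j, bitLength (A ⟨0, hm⟩ j) := Finset.sum_le_sum fun j _ => h1 _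
      _ ≤ _ := Finset.single_le_sum (f := fun i => ∑ j, bitLength (A i j))
        (fun _ _ => Nat.zero_le _) (Finset.mem_univ _)
  unfold inputLength
  omega

theorem pe_mono (p : Polynomial ℕ) {a b : ℕ} (h : a ≤ b) : p.eval a ≤ p.eval b :=
  Pool.Agent.Y648.CS.pe_mono p h

theorem leftKernel_mul {m n : ℕ} (A : Matrix (Fin m) (Fin n) ℝ) (G : Matrix (Fin n) (Fin n) ℝ)
    (hG : G.det ≠ 0) : leftKernel (A * G) = leftKernel A := by
  ext C
  rw [leftKernel, leftKernel, LinearMap.mem_ker, LinearMap.mem_ker, Matrix.vecMulLinear_apply,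
    Matrix.vecMulLinear_apply, ← Matrix.vecMul_vecMul]
  constructor
  · intro h
    exact Matrix.eq_zero_of_vecMul_eq_zero hG h
  · intro h
    rw [h, Matrix.zero_vecMul]

theorem mem_leftKernel {m n : ℕ} {A : Matrix (Fin m) (Fin n) ℝ} {C : Fin m → ℝ} :
    C ∈ leftKernel A ↔ ∀ j, ∑ i, C i * A i j = 0 := by
  rw [leftKernel, LinearMap.mem_ker, Matrix.vecMulLinear_apply]
  exact ⟨fun h j => congrFun h j, fun h => funext h⟩

theorem Depth.mono {D m n : ℕ} {A B : Matrix (Fin m) (Fin n) ℝ} (hB : Depth D B)
    (h : ∀ i j, A i j ≠ 0 → B i j ≠ 0) : Depth D A := by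
  obtain ⟨w, hw, h1, h2⟩ := hB
  exact ⟨w, hw, h1, fun i j j' hj hj' => h2 i j j' (h i j hj) (h i j' hj')⟩

theorem primal_le (D : ℕ) {m k : ℕ} (B : Matrix (Fin m) (Fin k) ℝ) (h : Depth D B)
    (C : Fin m → ℝ) (hC : Elementary (leftKernel B) C) : {i | C i ≠ 0}.ncard ≤ 2 ^ D := by
  obtain ⟨w, hw, h1, h2⟩ := h
  refine Pool.Agent.Y222.TD.primal B hw h1 h2 C ?_
  rw [← leftKernel_eq]
  exact hC

theorem dual_le (D : ℕ) {m k : ℕ} (B : Matrix (Fin m) (Fin k) ℝ) (h : Depth D B.transpose)
    (C : Fin m → ℝ) (hC : Elementary (orthogonal (leftKernel B)) C) :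
    {i | C i ≠ 0}.ncard ≤ 2 ^ D := by
  obtain ⟨w, hw, h1, h2⟩ := h
  refine Pool.Agent.Y222.TD.dual B hw h1 h2 C ?_
  rw [← leftKernel_eq]
  exact hC

/-- Matrices which differ in one row or in one column from a matrix of bounded treedepth. -/
theorem nearby {D m n : ℕ} {A B : Matrix (Fin m) (Fin n) ℝ} {G : Matrix (Fin n) (Fin n) ℝ}
    (hG : G.det ≠ 0) (hB : Depth D B ∨ Depth D B.transpose)
    (h : (∃ i, ∀ i', i' ≠ i → ∀ j, (A * G) i' j = B i' j) ∨
      ∃ j, ∀ i j', j' ≠ j → (A * G) i j' = B i j') :
    ∃ L : Submodule ℝ (Fin m → ℝ), (Within L (leftKernel A) ∨ Within (leftKernel A) L) ∧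
      ((∀ U ∈ circuits L, U.ncard ≤ 2 ^ D) ∨ ∀ U ∈ circuits (orthogonal L), U.ncard ≤ 2 ^ D) := by
  rcases h with ⟨i₀, hi₀⟩ | ⟨j₀, hj₀⟩
  · -- one row
    set B0 : Matrix (Fin m) (Fin n) ℝ := fun i j => if i = i₀ then 0 else B i j with hB0
    have hB0' : Depth D B0 ∨ Depth D B0.transpose := by
      rcases hB with hB | hB
      · refine Or.inl (hB.mono fun i j hij => ?_)
        by_cases hi : i = i₀
        · simp [hB0, hi] at hij
        · simpa [hB0, hi] using hij
      · refine Or.inr (hB.mono fun j i hij => ?_)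
        by_cases hi : i = i₀
        · simp [hB0, hi, Matrix.transpose] at hij
        · simpa [hB0, hi, Matrix.transpose] using hij
    have hsing : (Pi.single i₀ (1 : ℝ) : Fin m → ℝ) ∈ leftKernel B0 := by
      rw [mem_leftKernel]
      intro j
      refine Finset.sum_eq_zero fun i _ => ?_
      by_cases hi : i = i₀
      · simp [hB0, hi]
      · rw [Pi.single_eq_of_ne hi, zero_mul]
    have hcut : Pool.Agent.Y222.TD.Cut (leftKernel B0) i₀ =
        Pool.Agent.Y222.TD.Cut (leftKernel A) i₀ := by
      rw [← leftKernel_mul A G hG]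
      have hs : ∀ C : Fin m → ℝ, C i₀ = 0 → ∀ j, ∑ i, C i * B0 i j = ∑ i, C i * (A * G) i j := by
        intro C hC j
        refine Finset.sum_congr rfl fun i _ => ?_
        by_cases hi : i = i₀
        · rw [hi, hC, zero_mul, zero_mul]
        · rw [hi₀ i hi j]
          simp [hB0, hi]
      ext C
      constructor
      · rintro ⟨h1, h2⟩
        refine ⟨?_, h2⟩
        rw [mem_leftKernel] at h1 ⊢
        intro j
        rw [← hs C h2 j]
        exact h1 j
      · rintro ⟨h1, h2⟩
        refine ⟨?_, h2⟩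
        rw [mem_leftKernel] at h1 ⊢
        intro j
        rw [hs C h2 j]
        exact h1 j
    refine ⟨Pool.Agent.Y222.TD.Cut (leftKernel B0) i₀, Or.inl ?_, ?_⟩
    · rw [hcut]
      exact Pool.Agent.Y222.TD.cut_codim _ _
    · rcases hB0' with h | h
      · left
        rintro U ⟨C, hC, rfl⟩
        exact primal_le D B0 h C (Pool.Agent.Y222.TD.cut_elem hC)
      · right
        rintro U ⟨C, hC, rfl⟩
        rcases Pool.Agent.Y222.TD.cut_orth hsing hC with h1 | h1
        · change Pool.Agent.Y222.TD.sz C ≤ 2 ^ D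
          rw [h1]
          exact Nat.one_le_two_pow
        · exact dual_le D B0 h C h1
  · -- one column
    set B0 : Matrix (Fin m) (Fin n) ℝ := fun i j => if j = j₀ then 0 else B i j with hB0
    have hB0' : Depth D B0 ∨ Depth D B0.transpose := by
      rcases hB with hB | hB
      · refine Or.inl (hB.mono fun i j hij => ?_)
        by_cases hj : j = j₀
        · simp [hB0, hj] at hij
        · simpa [hB0, hj] using hij
      · refine Or.inr (hB.mono fun j i hij => ?_)
        by_cases hj : j = j₀
        · simp [hB0, hj, Matrix.transpose] at hij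
        · simpa [hB0, hj, Matrix.transpose] using hij
    refine ⟨leftKernel B0, Or.inr ?_, ?_⟩
    · rw [← leftKernel_mul A G hG]
      refine Pool.Agent.Y222.TD.codim_one _ _
        ((LinearMap.proj j₀).comp (Matrix.vecMulLinear (A * G))) fun C => ?_
      rw [mem_leftKernel, mem_leftKernel]
      have hf : ((LinearMap.proj j₀ : (Fin n → ℝ) →ₗ[ℝ] ℝ).comp (Matrix.vecMulLinear (A * G))) C =
          ∑ i, C i * (A * G) i j₀ := rfl
      rw [hf]
      constructor
      · intro h
        refine ⟨fun j => ?_, h j₀⟩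
        by_cases hj : j = j₀
        · simp [hB0, hj]
        · rw [← h j]
          refine Finset.sum_congr rfl fun i _ => ?_
          rw [hj₀ i j hj]
          simp [hB0, hj]
      · rintro ⟨h1, h2⟩ j
        by_cases hj : j = j₀
        · rw [hj]; exact h2
        · rw [← h1 j]
          refine Finset.sum_congr rfl fun i _ => ?_
          rw [hj₀ i j hj]
          simp [hB0, hj]
    · rcases hB0' with h | h
      · left
        rintro U ⟨C, hC, rfl⟩
        exact primal_le D B0 h C hC
      · right
        rintro U ⟨C, hC, rfl⟩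
        exact dual_le D B0 h C hC

/-- **One algorithm for all real instances, polynomial in the number of circuits or cocircuits.**
It is strongly polynomial if all circuits or all cocircuits of the rows of `A`, or of a space which
differs by one dimension, have bounded size; in particular if `A`, after an invertible operation on
the columns, differs in one row or in one column from a matrix of bounded primal or dual
treedepth. -/
theorem result :
    ∃ α : Alg, PolyControl α ∧ OracleFree α ∧
      (∃ p : Polynomial ℕ, ∀ m n : ℕ, 1 ≤ m → 1 ≤ n →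
        ∀ (A : Matrix (Fin m) (Fin n) ℝ) (b : Fin m → ℝ) (L : Submodule ℝ (Fin m → ℝ)) (N : ℕ),
        (Within L (leftKernel A) ∨ Within (leftKernel A) L) →
        ((circuits L).ncard ≤ N ∨ (circuits (orthogonal L)).ncard ≤ N) → Solves α p N A b) ∧
      (∀ s : ℕ, ∃ p : Polynomial ℕ, ∀ m n : ℕ, 1 ≤ m → 1 ≤ n →
        ∀ (A : Matrix (Fin m) (Fin n) ℝ) (b : Fin m → ℝ) (L : Submodule ℝ (Fin m → ℝ)),
        (Within L (leftKernel A) ∨ Within (leftKernel A) L) →
        ((∀ U ∈ circuits L, U.ncard ≤ s) ∨ ∀ U ∈ circuits (orthogonal L), U.ncard ≤ s) →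
        Solves α p 0 A b) ∧
      ∀ D : ℕ, ∃ p : Polynomial ℕ, ∀ m n : ℕ, 1 ≤ m → 1 ≤ n →
        ∀ (A B : Matrix (Fin m) (Fin n) ℝ) (b : Fin m → ℝ) (G : Matrix (Fin n) (Fin n) ℝ),
        G.det ≠ 0 → (Depth D B ∨ Depth D B.transpose) →
        ((∃ i, ∀ i', i' ≠ i → ∀ j, (A * G) i' j = B i' j) ∨
          ∃ j, ∀ i j', j' ≠ j → (A * G) i j' = B i j') →
        Solves α p 0 A b := by
  obtain ⟨p, hp⟩ := Pool.Agent.Y648.CS.V.main.2.2
  -- the first part, with `N`
  have key : ∀ m n : ℕ, 1 ≤ m → 1 ≤ n →
      ∀ (A : Matrix (Fin m) (Fin n) ℝ) (b : Fin m → ℝ) (L : Submodule ℝ (Fin m → ℝ)) (N : ℕ),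
      (Within L (leftKernel A) ∨ Within (leftKernel A) L) →
      ((circuits L).ncard ≤ N ∨ (circuits (orthogonal L)).ncard ≤ N) →
      Solves Pool.Agent.Y648.CS.W.algW (p.comp (Polynomial.X + 1)) N A b := by
    intro m n hm hn A b L N hL hN
    obtain ⟨S, h1, h2⟩ := Pool.Agent.Y222.TD.few (L := L) (N := N) hN
    have hsc := hp m n hm hn A b (N + 1) ⟨L, hL, ⟨S, h1, fun C hC i j hi hj => by
      have h3 := h2 C hC i j hi hj
      refine ⟨_, h3, le_rfl, le_mul_of_one_le_left (abs_nonneg _) ?_⟩
      exact one_le_pow₀ (by norm_num)⟩⟩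
    have he : ∀ t : ℕ, (p.comp (Polynomial.X + 1)).eval (t + N) = p.eval (t + (N + 1)) := by
      intro t
      simp only [Polynomial.eval_comp, Polynomial.eval_add, Polynomial.eval_X,
        Polynomial.eval_one]
      rfl
    unfold Solves
    simp only [he]
    exact hsc
  -- the second part
  have key2 : ∀ s : ℕ, ∃ p : Polynomial ℕ, ∀ m n : ℕ, 1 ≤ m → 1 ≤ n →
      ∀ (A : Matrix (Fin m) (Fin n) ℝ) (b : Fin m → ℝ) (L : Submodule ℝ (Fin m → ℝ)),
      (Within L (leftKernel A) ∨ Within (leftKernel A) L) →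
      ((∀ U ∈ circuits L, U.ncard ≤ s) ∨ ∀ U ∈ circuits (orthogonal L), U.ncard ≤ s) →
      Solves Pool.Agent.Y648.CS.W.algW p 0 A b := by
    intro s
    set q : Polynomial ℕ := p.comp (Polynomial.X + 1) with hq
    refine ⟨q.comp (Polynomial.X + (Polynomial.X + 1) ^ s), fun m n hm hn A b L hL hs => ?_⟩
    have hN : (circuits L).ncard ≤ (m + n + 1) ^ s ∨
        (circuits (orthogonal L)).ncard ≤ (m + n + 1) ^ s := by
      have hle : (Fintype.card (Fin m) + 1) ^ s ≤ (m + n + 1) ^ s := by
        rw [Fintype.card_fin]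
        exact Nat.pow_le_pow_left (by omega) s
      rcases hs with hs | hs
      · exact Or.inl ((Pool.Agent.Y222.TD.count _ s hs).trans hle)
      · exact Or.inr ((Pool.Agent.Y222.TD.count _ s hs).trans hle)
    obtain ⟨ans, nums, steps, h1, h2, h3, h4⟩ := key m n hm hn A b L _ hL hN
    have he : (q.comp (Polynomial.X + (Polynomial.X + 1) ^ s)).eval (m + n + 0) =
        q.eval (m + n + (m + n + 1) ^ s) := by
      simp only [Polynomial.eval_comp, Polynomial.eval_add, Polynomial.eval_X,
        Polynomial.eval_one, Polynomial.eval_pow, Nat.add_zero]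
    refine ⟨ans, nums, steps, ?_, h2, ?_, fun A' b' hA hb v hv => ?_⟩
    · rw [he]; exact h1
    · rw [he]; exact h3
    · obtain ⟨x, hx, hx'⟩ := h4 A' b' hA hb v hv
      refine ⟨x, hx, hx'.trans ?_⟩
      simp only [Polynomial.eval_comp, Polynomial.eval_add, Polynomial.eval_X,
        Polynomial.eval_one, Polynomial.eval_pow, Nat.add_zero]
      refine pe_mono q ?_
      have h5 := le_length hm A' b'
      exact Nat.add_le_add_left (Nat.pow_le_pow_left (by omega) s) _
  refine ⟨Pool.Agent.Y648.CS.W.algW, Pool.Agent.Y648.CS.V.main.1,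
    Pool.Agent.Y648.CS.V.main.2.1, ⟨_, key⟩, key2, fun D => ?_⟩
  obtain ⟨q, hq⟩ := key2 (2 ^ D)
  refine ⟨q, fun m n hm hn A B b G hG hB h => ?_⟩
  obtain ⟨L, hL, hs⟩ := nearby hG hB h
  exact hq m n hm hn A b L hL hs

end Pool.Agent.Y222.TD.Final
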